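import Pool.Agent.H71.TCZ.M37
import Pool.Agent.H71.TCZ.M50

/-!
# Project CZ: the measures without a bound for the `p`-torsion

`meas_of_root` is `meas_of_exp` (`H16/KN/Coch.lean`) for an element `c` of finite order which has no conjugate that is a
`p ^ r`-th power; the `p`-torsion of `G` may be unbounded.

PROOF.  For a tuple `v` the pairs `(z, j)` with `z v = σ ^ j v` embed in `ℤ` by `j`, hence are the powers of one
`(z₁, d)` (`stab_zpowersR`).  As `c v = σ ^ q v`, `q = p ^ m`, we have `q = k d`, `c = z₁ ^ k`, so `k = ± p ^ a`, and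
`a < r` as `c` is not a `p ^ r`-th power.  Hence `z₁ ^ (orderOf c * p ^ r) = 1`; the rest is as before.
-/

set_option autoImplicit false

universe u v w

namespace Pool.Agent.H16.CZ

open Pool.Agent.H71.FQ Pool.Agent.H16.KN

section

variable {G : Type u} [Group G]

/-- A root of `c` of degree dividing `p ^ m` has order dividing `orderOf c * p ^ r`. -/
theorem pow_of_root {p : ℕ} (hp : p.Prime) (r : ℕ) {c : G} (hroot : ∀ h : G, ¬ IsConj c (h ^ p ^ r)) {m : ℕ}
    {k : ℤ} {z : G} (hk : k ∣ ((p ^ m : ℕ) : ℤ)) (hz : z ^ k = c) : z ^ (orderOf c * p ^ r) = 1 := by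
  have h1 : k.natAbs ∣ p ^ m := by
    rw [← Int.natAbs_natCast (p ^ m)]
    exact Int.natAbs_dvd_natAbs.2 hk
  obtain ⟨a, -, ha⟩ := (Nat.dvd_prime_pow hp).1 h1
  obtain ⟨w, hw, hw2⟩ : ∃ w : G, w ^ (p ^ a) = c ∧ (w = z ∨ w = z⁻¹) := by
    rcases Int.natAbs_eq k with h2 | h2
    · refine ⟨z, ?_, Or.inl rfl⟩
      rw [h2, ha, zpow_natCast] at hz
      exact hz
    · refine ⟨z⁻¹, ?_, Or.inr rfl⟩
      rw [h2, ha, zpow_neg, zpow_natCast] at hz
      rw [inv_pow]
      exact hz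
  have har : a < r := by
    by_contra h3
    apply hroot (w ^ p ^ (a - r))
    rw [← pow_mul, ← pow_add, Nat.sub_add_cancel (not_lt.1 h3), hw]
  have h4 : w ^ (orderOf c * p ^ r) = 1 := by
    have h5 : p ^ r = p ^ a * p ^ (r - a) := by
      rw [← pow_add, Nat.add_sub_cancel' har.le]
    rw [h5, mul_comm, mul_assoc, pow_mul, hw, mul_comm, pow_mul, pow_orderOf_eq_one, one_pow]
  rcases hw2 with h5 | h5
  · rw [← h5]
    exact h4
  · rw [h5, inv_pow, inv_eq_one] at h4
    exact h4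

/-- The elements which act on a point as a power of `σ` form a cyclic group. -/
theorem stab_zpowersR {X Z : Type*} [Group Z] [MulAction Z X] (σ : Equiv.Perm X)
    (hσ : ∀ (z : Z) (x : X), σ (z • x) = z • σ x) (x : X) (hfree : ∀ z : Z, z • x = x → z = 1) :
    ∃ (z₁ : Z) (d : ℤ), z₁ • x = (σ ^ d) x ∧
      {z : Z | ∃ j : ℤ, z • x = (σ ^ j) x} = Subgroup.zpowers z₁ ∧
      ∀ (z : Z) (j : ℤ), z • x = (σ ^ j) x → ∃ k : ℤ, j = k * d ∧ z₁ ^ k = z := by
  have hcomm : ∀ z : Z, Commute (MulAction.toPermHom Z X z) σ := by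
    intro z
    ext y
    exact (hσ z y).symm
  have hz : ∀ (z : Z) (j : ℤ) (y : X), (σ ^ j) (z • y) = z • (σ ^ j) y := by
    intro z j y
    have h1 := ((hcomm z).zpow_right j).eq
    exact (congrArg (fun f : Equiv.Perm X => f y) h1).symm
  let J : AddSubgroup ℤ :=
    { carrier := {j | ∃ z : Z, z • x = (σ ^ j) x}
      zero_mem' := ⟨1, by simp⟩
      add_mem' := by
        rintro i j ⟨z, h1⟩ ⟨z', h2⟩
        refine ⟨z * z', ?_⟩
        rw [mul_smul, h2, ← hz, h1, ← Equiv.Perm.mul_apply, ← zpow_add, add_comm]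
      neg_mem' := by
        rintro j ⟨z, h1⟩
        refine ⟨z⁻¹, ?_⟩
        rw [inv_smul_eq_iff, ← hz, h1, ← Equiv.Perm.mul_apply, ← zpow_add, neg_add_cancel, zpow_zero]
        rfl }
  obtain ⟨d, hd⟩ := Int.subgroup_cyclic J
  have hdJ : d ∈ J := by
    rw [hd]
    exact AddSubgroup.subset_closure rfl
  obtain ⟨z₁, h1⟩ := hdJ
  have hpow : ∀ k : ℤ, (z₁ ^ k) • x = (σ ^ (k * d)) x := by
    intro k
    have h2 : (MulAction.toPermHom Z X z₁ * (σ ^ d)⁻¹) x = x := by
      rw [Equiv.Perm.mul_apply]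
      show z₁ • ((σ ^ d)⁻¹ x) = x
      rw [← zpow_neg, ← hz, h1, ← Equiv.Perm.mul_apply, ← zpow_add, neg_add_cancel, zpow_zero]
      rfl
    have h3 := Equiv.Perm.zpow_apply_eq_self_of_apply_eq_self h2 k
    rw [((hcomm z₁).zpow_right d).inv_right.mul_zpow, Equiv.Perm.mul_apply, ← map_zpow] at h3
    have h4 : (z₁ ^ k) • ((((σ ^ d)⁻¹) ^ k) x) = x := h3
    rw [← zpow_neg, ← zpow_mul, ← hz] at h4
    have h5 := congrArg (σ ^ (k * d)) h4
    rw [← Equiv.Perm.mul_apply, ← zpow_add, show k * d + -d * k = 0 by ring, zpow_zero] at h5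
    exact h5
  have hall : ∀ (z : Z) (j : ℤ), z • x = (σ ^ j) x → ∃ k : ℤ, j = k * d ∧ z₁ ^ k = z := by
    intro z j hj
    have hjJ : j ∈ J := ⟨z, hj⟩
    rw [hd, AddSubgroup.mem_closure_singleton] at hjJ
    obtain ⟨k, rfl⟩ := hjJ
    refine ⟨k, smul_eq_mul _ _, ?_⟩
    have h2 : (z⁻¹ * z₁ ^ k) • x = x := by
      rw [mul_smul, hpow k, inv_smul_eq_iff, hj, smul_eq_mul]
    have h3 := hfree _ h2
    rw [inv_mul_eq_one] at h3
    exact h3.symm
  refine ⟨z₁, d, h1, ?_, hall⟩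
  ext z
  constructor
  · rintro ⟨j, hj⟩
    obtain ⟨k, -, hk⟩ := hall z j hj
    exact ⟨k, hk⟩
  · rintro ⟨k, rfl⟩
    exact ⟨k * d, hpow k⟩

/-- **The measures for tuples.** -/
theorem exists_nu_tupleR {p : ℕ} (hp : p.Prime) (r : ℕ) {c : G} (hroot : ∀ h : G, ¬ IsConj c (h ^ p ^ r)) (m : ℕ)
    (hc : IsOfFinOrder c) :
    ∃ ν : (Fin (p ^ m) → G) → Subgroup.centralizer {c} →₀ ℤ,
      (∀ v, mass (ν v) = ((orderOf c * p ^ r : ℕ) : ℤ)) ∧
      (∀ (z : Subgroup.centralizer {c}) (v : Fin (p ^ m) → G),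
        ν (lmul (z : G) v) = (ν v).mapDomain fun y => z * y) ∧
      ∀ v, ν (sig (p ^ m) c v) = ν v := by
  have hq : 0 < p ^ m := Nat.pow_pos hp.pos
  let σ : Equiv.Perm (Fin (p ^ m) → G) := Equiv.ofBijective (sig (p ^ m) c) (sig_bijective _ c)
  have hσa : ∀ v, σ v = sig (p ^ m) c v := fun v => rfl
  have hsmul : ∀ (z : Subgroup.centralizer {c}) (v : Fin (p ^ m) → G), z • v = lmul (z : G) v := fun z v => rfl
  have hσ : ∀ (z : Subgroup.centralizer {c}) (v : Fin (p ^ m) → G), σ (z • v) = z • σ v := by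
    intro z v
    rw [hsmul, hsmul, hσa, hσa]
    exact sig_lmul c z (Subgroup.mem_centralizer_singleton_iff.1 z.2) v
  have hσq : ∀ v, (σ ^ (p ^ m)) v = lmul c v := by
    intro v
    rw [← Equiv.Perm.iterate_eq_pow]
    exact sig_iterate _ c v
  have hfree : ∀ (v : Fin (p ^ m) → G) (z : Subgroup.centralizer {c}), z • v = v → z = 1 := by
    intro v z h
    have h1 : (z : G) * v ⟨0, hq⟩ = v ⟨0, hq⟩ := congrFun h ⟨0, hq⟩
    exact Subtype.ext (mul_eq_right.1 h1)
  -- the generator of the stabiliser has order dividing `orderOf c * p ^ r`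
  have key : ∀ v : Fin (p ^ m) → G, ∃ z₁ : Subgroup.centralizer {c},
      {z : Subgroup.centralizer {c} | ∃ j : ℤ, z • v = (σ ^ j) v} = Subgroup.zpowers z₁ ∧
        z₁ ^ (orderOf c * p ^ r) = 1 := by
    intro v
    obtain ⟨z₁, d, h1, h2, hall⟩ := stab_zpowersR σ hσ v (hfree v)
    refine ⟨z₁, h2, ?_⟩
    obtain ⟨k, hk1, hk2⟩ := hall ⟨c, Subgroup.mem_centralizer_singleton_iff.2 rfl⟩ ((p ^ m : ℕ) : ℤ) (by
      rw [zpow_natCast, hσq]
      rfl)
    have hk3 : ((z₁ : G)) ^ k = c := by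
      have h3 := congrArg (fun z : Subgroup.centralizer ({c} : Set G) => (z : G)) hk2
      simpa using h3
    apply Subtype.ext
    rw [Subgroup.coe_pow, Subgroup.coe_one]
    exact pow_of_root hp r hroot (Dvd.intro _ hk1.symm) hk3
  have hD : 0 < orderOf c * p ^ r := Nat.mul_pos hc.orderOf_pos (Nat.pow_pos hp.pos)
  have hfin : ∀ v : Fin (p ^ m) → G, {z : Subgroup.centralizer {c} | ∃ j : ℤ, z • v = (σ ^ j) v}.Finite := by
    intro v
    obtain ⟨z₁, h1, h2⟩ := key v
    rw [h1]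
    have h3 : IsOfFinOrder z₁ := isOfFinOrder_iff_pow_eq_one.2 ⟨_, hD, h2⟩
    exact h3.finite_zpowers
  have hcard : ∀ v : Fin (p ^ m) → G,
      Nat.card {z : Subgroup.centralizer {c} | ∃ j : ℤ, z • v = (σ ^ j) v} ∣ orderOf c * p ^ r := by
    intro v
    obtain ⟨z₁, h1, h2⟩ := key v
    rw [h1]
    have h3 : Nat.card (Subgroup.zpowers z₁ : Set (Subgroup.centralizer {c})) = orderOf z₁ := Nat.card_zpowers z₁
    rw [h3]
    exact orderOf_dvd_of_pow_eq_one h2
  obtain ⟨ν, hν1, hν2, hν3⟩ := exists_nu (Z := Subgroup.centralizer {c}) σ hσ (orderOf c * p ^ r) hD hfin hcard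
  exact ⟨ν, hν1, hν2, hν3⟩

end

section

variable {G : Type u} [Group G] {B : Type v} [CommRing B] {n : ℕ}

private theorem lc_smul_bd {X : Type*} {Z : Type*} (φ : (Fin (n + 2) → Z) → B) (f : (Fin (n + 1) → Z) → B)
    (hf : ∀ x : Fin (n + 2) → Z, ∑ i : Fin (n + 2), (-1 : ℤ) ^ (i : ℕ) • f (fun j => x (i.succAbove j)) = φ x)
    (ν : X → Z →₀ ℤ) (μ : ℤ) (hμ : ∀ x, mass (ν x) = μ) (c : Cx ℤ X (n + 2)) :
    Finsupp.linearCombination ℤ φ (vmap ν (n + 1) (bd ℤ X (n + 1) c)) = 0 := by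
  have h1 : ∀ d : Cx ℤ Z (n + 1), Finsupp.linearCombination ℤ φ d =
      Finsupp.linearCombination ℤ f (bd ℤ Z n d) := by
    intro d
    rw [lc_bd]
    congr 1
    congr 1
    funext x
    exact (hf x).symm
  rw [h1, bd_vmap ν μ hμ, bd_bd, map_zero, smul_zero, map_zero]

private theorem lc_single_bd {X : Type*} {m : ℕ} (ψ : (Fin (m + 1) → X) → B) (v : Fin (m + 2) → X) :
    Finsupp.linearCombination ℤ ψ (bd ℤ X m (Finsupp.single v 1)) = dl ψ v := by
  rw [lc_bd, Finsupp.linearCombination_single, one_smul]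
  rfl

theorem meas_of_root {p : ℕ} (hp : p.Prime) (r : ℕ)
    {c : G} (hroot : ∀ h : G, ¬ IsConj c (h ^ p ^ r)) (hc : IsOfFinOrder c)
    (π : G → Subgroup.centralizer ({c} : Set G))
    (hπ : ∀ (z : Subgroup.centralizer ({c} : Set G)) (g : G), π (z * g) = z * π g)
    {φ : (Fin (n + 2) → Subgroup.centralizer ({c} : Set G)) → B}
    (hφ : IsCoc (Subgroup.centralizer ({c} : Set G)) n φ) : Meas p c π φ := by
  refine ⟨orderOf c * p ^ r, Nat.mul_ne_zero hc.orderOf_pos.ne' (pow_ne_zero _ hp.ne_zero), fun m => ?_⟩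
  obtain ⟨ν, hν1, hν2, hν3⟩ := exists_nu_tupleR hp r hroot m hc
  set μ : ℤ := ((orderOf c * p ^ r : ℕ) : ℤ) with hμ
  have h0 : 0 < p ^ m := Nat.pow_pos hp.pos
  obtain ⟨H, h1, h2⟩ := exists_homotopy (R := ℤ) ν
    (fun v : Fin (p ^ m) → G => Finsupp.single (π (v ⟨0, h0⟩)) μ) μ hν1
    (fun v => mass_single' _ _) (fun v => π (v ⟨0, h0⟩))
  have hlc : ∀ (k : ℕ) (φ' : (Fin (k + 1) → Subgroup.centralizer ({c} : Set G)) → B)
      (hφ' : ∀ (z : Subgroup.centralizer ({c} : Set G)) x, φ' (fun j => z * x j) = φ' x)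
      (z : Subgroup.centralizer ({c} : Set G)) (d : Cx ℤ (Subgroup.centralizer ({c} : Set G)) k),
      Finsupp.linearCombination ℤ φ' (push ℤ (fun y => z * y) k d) =
        Finsupp.linearCombination ℤ φ' d := by
    intro k φ' hφ' z d
    rw [lc_push]
    congr 1
    congr 1
    funext x
    exact hφ' z x
  refine ⟨fun v => Finsupp.linearCombination ℤ φ (tens ν (n + 1) v),
    fun v => Finsupp.linearCombination ℤ φ (H n (Finsupp.single v 1)), ?_, ?_, ?_, ?_, ?_⟩
  · intro g hg v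
    have hz : g ∈ Subgroup.centralizer ({c} : Set G) := Subgroup.mem_centralizer_singleton_iff.2 hg
    show Finsupp.linearCombination ℤ φ (tens ν (n + 1) (fun j => lmul g (v j))) =
      Finsupp.linearCombination ℤ φ (tens ν (n + 1) v)
    have h3 : tens ν (n + 1) (fun j => lmul g (v j)) =
        push ℤ (fun y => (⟨g, hz⟩ : Subgroup.centralizer ({c} : Set G)) * y) (n + 1)
          (tens ν (n + 1) v) := by
      rw [← vmap_single ν (n + 1) v, push_vmap, vmap_single, tens_eq_tenf, tens_eq_tenf]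
      congr 1
      funext j
      exact hν2 ⟨g, hz⟩ (v j)
    rw [h3, hlc _ φ hφ.inv]
  · intro v
    show Finsupp.linearCombination ℤ φ (tens ν (n + 1) (fun j => sig (p ^ m) c (v j))) =
      Finsupp.linearCombination ℤ φ (tens ν (n + 1) v)
    congr 1
    rw [tens_eq_tenf, tens_eq_tenf]
    congr 1
    funext j
    exact hν3 (v j)
  · intro v
    rw [← lc_single_bd, ← lc_vmap]
    refine lc_smul_bd φ (fun x => φ (Fin.cons 1 x)) ?_ ν μ hν1 _
    intro x
    have h3 := hφ.coc (Fin.cons 1 x)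
    rw [Fin.sum_univ_succ] at h3
    have h4 : (fun j => (Fin.cons 1 x : Fin (n + 3) → Subgroup.centralizer ({c} : Set G))
        ((0 : Fin (n + 3)).succAbove j)) = x := by
      funext j
      rw [Fin.succAbove_zero, Fin.cons_succ]
    have h5 : ∀ i : Fin (n + 2), (fun j => (Fin.cons 1 x : Fin (n + 3) → Subgroup.centralizer ({c} : Set G))
        (i.succ.succAbove j)) = Fin.cons 1 fun j => x (i.succAbove j) := by
      intro i
      funext j
      refine Fin.cases ?_ (fun j => ?_) j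
      · rw [Fin.succ_succAbove_zero, Fin.cons_zero, Fin.cons_zero]
      · rw [Fin.succ_succAbove_succ, Fin.cons_succ, Fin.cons_succ]
    rw [h4] at h3
    simp only [h5, Fin.val_zero, pow_zero, one_smul, Fin.val_succ, pow_succ, mul_neg, mul_one,
      neg_smul, Finset.sum_neg_distrib] at h3
    exact (sub_eq_zero.1 (by rw [sub_eq_add_neg]; exact h3)).symm
  · intro g hg v
    have hz : g ∈ Subgroup.centralizer ({c} : Set G) := Subgroup.mem_centralizer_singleton_iff.2 hg
    show Finsupp.linearCombination ℤ φ (H n (Finsupp.single (fun j => lmul g (v j)) 1)) =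
      Finsupp.linearCombination ℤ φ (H n (Finsupp.single v 1))
    have h3 := h2 (fun y => lmul g y) (fun y => (⟨g, hz⟩ : Subgroup.centralizer ({c} : Set G)) * y)
      (fun y => (hν2 ⟨g, hz⟩ y).symm) (fun y => by
        show (Finsupp.single (π (y ⟨0, h0⟩)) μ).mapDomain _ = Finsupp.single (π (g * y ⟨0, h0⟩)) μ
        rw [Finsupp.mapDomain_single]
        congr 1
        exact (hπ ⟨g, hz⟩ _).symm) (fun y => (hπ ⟨g, hz⟩ _).symm) n (Finsupp.single v 1)
    rw [push_single] at h3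
    rw [h3, hlc _ φ hφ.inv]
  · intro h0' v
    have h3 := congrArg (Finsupp.linearCombination ℤ φ) (h1 n (Finsupp.single v 1))
    rw [map_add, map_smul, map_sub, lc_bd, vmap_single, vmap_smul_point, push_single, map_smul,
      Finsupp.linearCombination_single, one_smul] at h3
    have h4 : (fun x : Fin (n + 3) → Subgroup.centralizer ({c} : Set G) =>
        ∑ i : Fin (n + 3), (-1 : ℤ) ^ (i : ℕ) • φ (fun j => x (i.succAbove j))) = fun _ => 0 :=
      funext fun x => hφ.coc x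
    have h5 : ∀ d : Cx ℤ (Subgroup.centralizer ({c} : Set G)) (n + 2), Finsupp.linearCombination ℤ
        (fun _ : Fin (n + 3) → Subgroup.centralizer ({c} : Set G) => (0 : B)) d = 0 := fun d => by
      simp [Finsupp.linearCombination_apply]
    have h6 : Finsupp.linearCombination ℤ φ (H n (bd ℤ (Fin (p ^ m) → G) n (Finsupp.single v 1))) =
        dl (fun v => Finsupp.linearCombination ℤ φ (H n (Finsupp.single v 1))) v := by
      rw [bd_single, map_sum, map_sum]
      refine Finset.sum_congr rfl fun i _ => ?_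
      rw [map_smul, map_smul]
    rw [h4, h5, zero_add, h6, hμ] at h3
    simp only [zsmul_eq_mul, Int.cast_pow, Int.cast_natCast] at h3
    show _ = Finsupp.linearCombination ℤ φ (tens ν (n + 1) v) - _
    rw [h3]
    ring

end

end Pool.Agent.H16.CZ
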