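import Pool.Agent.H71.TCZ.M49

/-!
# Project CZ, the `K₀`-part: functions which are invariant under right multiplications by a subgroup `D`

If `φ` does not change when its variables are multiplied from the right by elements of `D`, then the trace cochain `TT c φ`
does not change when the matrices (except the first one) are multiplied from the right by invertible matrices over `B[D]`.

PROOF. It is enough to change one vertex `i ≥ 1` (induction on the number of the changed vertices, or change the vertices
`1, …, i` successively).  The letters are `x_j⁻¹ x_{j+1}`; the letter `i - 1` is multiplied from the right by `A_i`, the letter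
`i` from the left by `A_i⁻¹`.  `TM` is `lam (wf c ..) (∏ io j (b j))`; split the product at the letters `i - 1`, `i`
(`exists_split` of `FQ/TB.lean`) and use `lam_move` (`FQ/FRingA.lean`) with `wf_move` (`FQ/Word.lean`); compare `TB_merge_succ`
in `FQ/TB.lean` and `TT_face` in `KN/TTb.lean`.
-/

set_option autoImplicit false

open Matrix

universe u v w

namespace Pool.Agent.H16.CZ

open Pool.Agent.H71.FQ Pool.Agent.H16.KN

section

/-- a product with two marked neighbouring factors -/
private theorem rinv_split {R : Type*} [Monoid R] (n : ℕ) (f : Fin (n + 2) → R) (i : Fin (n + 1)) :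
    ∃ A C : R, ∀ g : Fin (n + 2) → R, (∀ j, j ≠ i.castSucc → j ≠ i.succ → g j = f j) →
      (List.ofFn g).prod = A * g i.castSucc * g i.succ * C := by
  induction n with
  | zero =>
    have hi : i = 0 := Fin.ext (by omega)
    subst hi
    refine ⟨1, 1, ?_⟩
    intro g _
    simp [List.ofFn_succ]
  | succ n ih =>
    refine Fin.cases ?_ (fun i' => ?_) i
    · refine ⟨1, (List.ofFn fun j : Fin (n + 1) => f j.succ.succ).prod, ?_⟩
      intro g hg
      rw [List.ofFn_succ, List.prod_cons, List.ofFn_succ, List.prod_cons, Fin.castSucc_zero,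
        one_mul, mul_assoc]
      congr 3
      congr 1
      funext j
      refine hg _ ?_ ?_
      · rw [Fin.castSucc_zero]
        exact Fin.succ_ne_zero _
      · intro h
        exact Fin.succ_ne_zero _ (Fin.succ_injective _ h)
    · obtain ⟨A, C, h⟩ := ih (fun j => f j.succ) i'
      refine ⟨f 0 * A, C, ?_⟩
      intro g hg
      rw [List.ofFn_succ, List.prod_cons, h (fun j => g j.succ) (fun j h1 h2 => by
        refine hg _ ?_ ?_
        · rw [← Fin.succ_castSucc]
          exact fun h => h1 (Fin.succ_injective _ h)
        · exact fun h => h2 (Fin.succ_injective _ h)),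
        hg 0 (by rw [← Fin.succ_castSucc]; exact (Fin.succ_ne_zero _).symm)
          (Fin.succ_ne_zero _).symm]
      simp only [mul_assoc, Fin.succ_castSucc]

variable {G : Type v} [Group G] {B : Type u} [CommRing B] {K : ℕ} {c : G}

/-- invariance under the right multiplications by elements of `D` -/
def RI (D : Subgroup G) (φ : (Fin K → G) → B) : Prop :=
  ∀ s : Fin K → G, (∀ j, s j ∈ D) → ∀ v, φ (fun j => v j * s j) = φ v

omit [CommRing B] in
private theorem rinv_isInv {c : G} {φ : (Fin K → G) → B} (hφ : CI c φ) :
    IsInv c (fun v : Fin K → Fin 1 → G => φ fun j => v j 0) := by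
  refine ⟨fun g hg v => hφ g hg _, fun v => ?_⟩
  have h := hφ c rfl fun j => v j 0
  rw [← h]
  congr 1

/-- one vertex -/
private theorem rinv_step {n : ℕ} {φ : (Fin (n + 2) → G) → B} (hφ : CI c φ) (D : Subgroup G)
    (hD : RI D φ) {N : ℕ} (x : Fin (n + 2) → GLm N (MonoidAlgebra B G)) (i : Fin (n + 1))
    (s : GLm N (MonoidAlgebra B D)) :
    TT c φ (Function.update x i.succ
      (x i.succ * mapGL (MonoidAlgebra.mapDomainRingHom B D.subtype) N s)) = TT c φ x := by
  set a := mapGL (MonoidAlgebra.mapDomainRingHom B D.subtype) N s with ha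
  set y := Function.update x i.succ (x i.succ * a) with hy
  have hi : i.castSucc + 1 = i.succ := Fin.coeSucc_eq_succ
  have hne : i.castSucc ≠ i.succ := (Fin.castSucc_lt_succ (i := i)).ne
  have hne2 : i.succ + 1 ≠ i.succ := by
    intro h
    have h1 : (1 : Fin (n + 2)) = 0 := by
      have := congrArg (fun t => -i.succ + t) h
      simp at this
    exact absurd h1 (by simp)
  have l1 : lts y i.castSucc = lts x i.castSucc * s.val.map (MonoidAlgebra.mapDomainRingHom B D.subtype) := by
    unfold lts
    rw [hi, hy, Function.update_of_ne hne, Function.update_self, ← mul_assoc, Units.val_mul]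
    rfl
  have l2 : s.val.map (MonoidAlgebra.mapDomainRingHom B D.subtype) * lts y i.succ = lts x i.succ := by
    have h1 : s.val.map (MonoidAlgebra.mapDomainRingHom B D.subtype) = a.val := rfl
    unfold lts
    rw [hy, Function.update_of_ne hne2, Function.update_self, h1, ← Units.val_mul]
    congr 1
    group
  have l3 : ∀ j, j ≠ i.castSucc → j ≠ i.succ → lts y j = lts x j := by
    intro j h1 h2
    unfold lts
    rw [hy, Function.update_of_ne h2, Function.update_of_ne]
    intro h
    apply h1
    rw [← hi] at h
    exact add_right_cancel h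
  unfold TT TM TB
  rw [pow_one, pow_one]
  obtain ⟨A, C, h⟩ := rinv_split n
    (fun j : Fin (n + 2) => (io (j : ℕ) (lts x j) : FR G (Fin N) B)) i
  rw [h (fun j : Fin (n + 2) => (io (j : ℕ) (lts x j) : FR G (Fin N) B)) fun _ _ _ => rfl,
    h (fun j : Fin (n + 2) => (io (j : ℕ) (lts y j) : FR G (Fin N) B)) fun j h1 h2 => by
      simp only [l3 j h1 h2]]
  rw [l1, lam_move D (l := ((i.castSucc : Fin (n + 2)) : ℕ)) (i := ((i.succ : Fin (n + 2)) : ℕ))
    (fun V W x y s hs => wf_move (rinv_isInv hφ) D (fun s hs v => hD (fun j => s j 0)
      (fun j => hs j 0) fun j => v j 0) _ V W x y s hs _ _), l2]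

theorem TT_rinv [NeZero K] {φ : (Fin K → G) → B} (hφ : CI c φ) (D : Subgroup G) (hD : RI D φ)
    {N : ℕ} (x : Fin K → GLm N (MonoidAlgebra B G)) (A : Fin K → GLm N (MonoidAlgebra B D))
    (hA : A 0 = 1) :
    TT c φ (fun j => x j * mapGL (MonoidAlgebra.mapDomainRingHom B D.subtype) N (A j)) =
      TT c φ x := by
  classical
  obtain hK | ⟨n, rfl⟩ : K = 1 ∨ ∃ n, K = n + 2 := by
    have := Nat.pos_of_ne_zero (NeZero.ne K)
    rcases Nat.lt_or_ge K 2 with h | h
    · left; omega
    · right; exact ⟨K - 2, by omega⟩
  · subst hK
    congr 1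
    funext j
    have hj : j = 0 := Subsingleton.elim _ _
    rw [hj, hA, map_one, mul_one]
  · have key : ∀ S : Finset (Fin (n + 2)), 0 ∉ S → TT c φ (fun j => if j ∈ S then x j *
        mapGL (MonoidAlgebra.mapDomainRingHom B D.subtype) N (A j) else x j) = TT c φ x := by
      intro S
      induction S using Finset.induction_on with
      | empty =>
        intro _
        simp
      | insert i S hi ih =>
        intro h0
        rw [Finset.mem_insert, not_or] at h0
        rw [← ih h0.2]
        obtain ⟨i', rfl⟩ := Fin.exists_succ_eq.2 (Ne.symm h0.1)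
        refine Eq.trans ?_ (rinv_step hφ D hD _ i' (A i'.succ))
        congr 1
        funext j
        by_cases hj : j = i'.succ
        · subst hj
          rw [Function.update_self, if_pos (Finset.mem_insert_self _ _), if_neg hi]
        · rw [Function.update_of_ne hj]
          simp only [Finset.mem_insert, hj, false_or]
    have h1 := key (Finset.univ.erase 0) (Finset.notMem_erase 0 _)
    rw [← h1]
    congr 1
    funext j
    by_cases hj : j = 0
    · rw [hj, if_neg (Finset.notMem_erase 0 _), hA, map_one, mul_one]
    · rw [if_pos (Finset.mem_erase.2 ⟨hj, Finset.mem_univ _⟩)]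

end

end Pool.Agent.H16.CZ
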