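import Pool.Agent.H71.TCZ.H16.CZ.Fun1
import Pool.Agent.H71.TCZ.H16.CZ.Rinv
import Pool.Agent.H71.TCZ.M08
import Pool.Agent.H71.TCZ.M32

/-!
# Project CZ, the `K₀`-part: the value on the symbols of the `K₀`-part, for functions which are invariant under `D`

PROOFS. Port of `TK_rho`, `trT_gasm` of `FQ/EvC.lean` to `q = 1` without lifting: `TM c φ b` is by definition
`TB c (fun v => φ fun j => v j 0) b`, so `TB_eg` (`FQ/EvC1.lean`) with `q = 1` applies to the letters, which are
`bmat .. e (single g 1) = eg D e g` (`rho_val`).  `tr1_gasm`: `asm_mk`, `tr1_cls`, `HG.ev_map`, `HG.ev_sum`, `HG.ev_const`.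
-/

set_option autoImplicit false

open Matrix

universe u v w

namespace Pool.Agent.H16.CZ

open Pool.Agent.H71.FQ Pool.Agent.H16.KN
open Pool.Agent.H71.FJ (IdemMat K0 K0.mk)

section

variable {G : Type v} [Group G] {B : Type u} [CommRing B] {n : ℕ} {c : G}

/-- the function of tuples of length one -/
def u1 {K : ℕ} (φ : (Fin K → G) → B) (v : Fin K → Fin 1 → G) : B := φ fun j => v j 0

theorem isPhi_u1 {φ : (Fin (n + 2) → G) → B} (hφ : IsC c φ) : IsPhi c (u1 φ) where
  inv g hg v := hφ.inv g hg fun j => v j 0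
  rot v := hφ.inv c rfl fun j => v j 0
  coc v := hφ.coc fun j => v j 0

theorem rInv_u1 {K : ℕ} {φ : (Fin K → G) → B} {D : Subgroup G} (hD : RI D φ) :
    RInv D (u1 φ) := fun s hs v => hD (fun j => s j 0) (fun j => hs j 0) fun j => v j 0

/-- The value of `TT` on the representation given by an idempotent. -/
private theorem TT_rho {φ : (Fin (n + 2) → G) → B} (hφ : IsC c φ)
    (D : Subgroup G) [Fintype D] (hD : RI D φ) (a : IdemMat (MonoidAlgebra B D))
    (z : Fin (n + 2) → Subgroup.centralizer (D : Set G)) :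
    TT c φ (fun j => rho (MonoidAlgebra.mapDomainRingHom B D.subtype)
      ((grpHom B G).comp (Subgroup.centralizer (D : Set G)).subtype)
      (grpHom_comm B D.subtype (Subgroup.centralizer (D : Set G)).subtype (cent_comm D))
      a (z j)) =
      (∑ x : D, (trace a.mat).coeff x * rs c (u1 φ) (x : G) (fun j => (z j : G))) +
        ∑ x : D, (trace (1 - a.mat)).coeff x * rs c (u1 φ) (x : G) (fun _ => 1) := by
  unfold TT TM
  refine Eq.trans ?_ (TB_eg (ι := Fin a.n) Nat.one_pos (isPhi_u1 hφ).toIsInv D (rInv_u1 hD) a.mat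
    a.idem (fun j => (z j : G)) fun j => (z j).2)
  congr 1
  funext j
  unfold lts
  rw [← map_inv, ← map_mul]
  rfl

/-- **The value on the symbols of the `K₀`-part.** -/
theorem tr1_gasm {φ : (Fin (n + 2) → G) → B} (hφ : IsC c φ) (D : Subgroup G) [Fintype D]
    (hD : RI D φ) (a : IdemMat (MonoidAlgebra B D))
    (z : HG (Subgroup.centralizer (D : Set G)) n) :
    tr1 hφ (gasm B n D.subtype (Subgroup.centralizer (D : Set G)).subtype (cent_comm D)
      (K0.mk a) z) = ∑ x : D, (trace a.mat).coeff x * HG.ev (isCoc_rs (isPhi_u1 hφ) D x) z := by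
  unfold gasm
  rw [asm_mk, tr1_cls, HG.ev_map]
  have h1 : ∀ x : D, IsCoc (Subgroup.centralizer (D : Set G)) n fun z =>
      (trace a.mat).coeff x * rs c (u1 φ) (x : G) fun j => (z j : G) := fun x =>
    (isCoc_rs (isPhi_u1 hφ) D x).mul _
  have h2 := IsCoc.sum Finset.univ fun x _ => h1 x
  obtain ⟨C, hC⟩ : ∃ C : B, C =
      ∑ x : D, (trace (1 - a.mat)).coeff x * rs c (u1 φ) (x : G) (fun _ : Fin (n + 2) => 1) :=
    ⟨_, rfl⟩
  obtain ⟨ψ, hψ, hψe⟩ : ∃ (ψ : (Fin (n + 2) → Subgroup.centralizer (D : Set G)) → B)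
      (h : IsCoc (Subgroup.centralizer (D : Set G)) n ψ), HG.ev ((isCoc_TT a.n hφ).comp
        (rho (MonoidAlgebra.mapDomainRingHom B D.subtype)
          ((grpHom B G).comp (Subgroup.centralizer (D : Set G)).subtype)
          (grpHom_comm B D.subtype (Subgroup.centralizer (D : Set G)).subtype (cent_comm D))
          a)) z = HG.ev h z ∧
        ∀ x, ψ x = (∑ y : D, (trace a.mat).coeff y * rs c (u1 φ) (y : G) fun j => (x j : G)) + C :=
    ⟨_, _, rfl, fun x => by
      rw [hC]
      exact TT_rho hφ D hD a x⟩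
  obtain ⟨e1, e2⟩ := hψe
  have h3 : IsCoc (Subgroup.centralizer (D : Set G)) n fun _ => C := by
    refine ⟨fun _ _ => rfl, fun x => ?_⟩
    have e3 : ∀ x, C = ψ x -
        ∑ y : D, (trace a.mat).coeff y * rs c (u1 φ) (y : G) fun j => (x j : G) := by
      intro x
      rw [e2 x]
      ring
    have e4 : ∀ i : Fin (n + 3), (-1 : ℤ) ^ (i : ℕ) • C =
        (-1 : ℤ) ^ (i : ℕ) • ψ (fun j => x (i.succAbove j)) -
        (-1 : ℤ) ^ (i : ℕ) • ∑ y : D, (trace a.mat).coeff y *
          rs c (u1 φ) (y : G) fun j => (x (i.succAbove j) : G) := by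
      intro i
      rw [← smul_sub, ← e3]
    rw [Finset.sum_congr rfl fun i _ => e4 i, Finset.sum_sub_distrib, hψ.coc x]
    have e5 := h2.coc x
    rw [e5, sub_zero]
  rw [e1, HG.ev_add hψ h2 h3 e2 z, HG.ev_const, add_zero, HG.ev_sum h1 h2]
  exact Finset.sum_congr rfl fun x _ => HG.ev_mul _ (isCoc_rs (isPhi_u1 hφ) D x) (h1 x) z

end

end Pool.Agent.H16.CZ
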