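import Pool.Agent.H71.TCZ.H16.CZ.V0
import Pool.Agent.H71.TCZ.H71.FQ.EvD_1
import Pool.Agent.H71.TCZ.M51

/-!
# Project CZ, the `K₀`-part: the value of the functionals on the symbols of the `K₀`-part

PROOF of `T1_gasm`: as `trT_sym` in `FQ/EvD.lean`.  Let `π = piC c`, `Φ = u1 (pullC π φ)`; `Φ v = pull ν φ v` for
`ν v = single (π (v 0)) 1` (`v : Fin 1 → G`, mass `1`, equivariant by `piC_mul`).  `av v = avF D Φ (fun j _ => v j)` is the
function of the proof of `exists_av` (`avF_eq`, `avF_rinv`, `isPhi_avF`; `u1 av = avF D Φ`).  `tr1_gasm` for `av` and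
`ev_rs_avF` (with `f = RingHom.id B`, `D₀ = 1`) give the value `(card D) ^ (n + 2) * ∑ x, (trace a.mat).coeff x * vl hφ D x z`;
`tr1_cob` and `tr1_mul` compare `av` with `(card D) ^ (n + 2) • pullC π φ`; cancel.  `T_dlt_mk` and `K0.hom_ext` give the
statement for all `y`.
-/

set_option autoImplicit false

open Matrix

universe u v w

namespace Pool.Agent.H16.CZ

open Pool.Agent.H71.FQ Pool.Agent.H16.KN
open Pool.Agent.H71.FJ (IdemMat K0 K0.mk T dlt dlt_comm)

section

variable {G : Type v} [Group G] {B : Type u} [CommRing B] {n : ℕ}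

/-- the point masses of the map to the centralizer -/
noncomputable def nuC (c : G) (v : Fin 1 → G) : Subgroup.centralizer ({c} : Set G) →₀ ℤ :=
  Finsupp.single (piC c (v 0)) 1

theorem nuC_lmul (c : G) (z : Subgroup.centralizer ({c} : Set G)) (v : Fin 1 → G) :
    nuC c (lmul (z : G) v) = (nuC c v).mapDomain fun y => z * y := by
  rw [nuC, nuC, Finsupp.mapDomain_single]
  congr 1
  exact piC_mul c z (v 0)

theorem pull_nuC (c : G) (φ : (Fin (n + 2) → Subgroup.centralizer ({c} : Set G)) → B)
    (v : Fin (n + 2) → Fin 1 → G) : pull (nuC c) φ v = u1 (pullC (piC c) φ) v := by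
  have h := tens_smul_point (1 : ℤ) (fun w : Fin 1 → G => piC c (w 0)) (n + 1) v
  rw [one_pow, one_smul] at h
  rw [pull]
  refine (congrArg (Finsupp.linearCombination ℤ φ) h).trans ?_
  rw [Finsupp.linearCombination_single, one_smul]
  rfl

end

section

variable {G : Type v} [Group G] {B : Type u} [Field B] [CharZero B] {n : ℕ} {c : G}

/-- **The value on the symbols of the `K₀`-part.** -/
theorem T1_gasm {φ : (Fin (n + 2) → Subgroup.centralizer ({c} : Set G)) → B}
    (hφ : IsCoc (Subgroup.centralizer ({c} : Set G)) n φ) (D : Subgroup G) [Fintype D]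
    [IsCyclic D] (y : K0 (MonoidAlgebra B D)) (z : HG (Subgroup.centralizer (D : Set G)) n) :
    T1 hφ (gasm B n D.subtype (Subgroup.centralizer (D : Set G)).subtype (cent_comm D) y z) =
      ∑ x : D, vl hφ D x z * T (dlt B x) (dlt_comm _ x) y := by
  have h0 := isC_pull (piC_mul c) hφ
  have hu : (fun v : Fin (n + 2) → Fin 1 → G => RingHom.id B (pull (nuC c) φ v)) =
      u1 (pullC (piC c) φ) := funext fun v => pull_nuC c φ v
  have hΦ : IsPhi c fun v : Fin (n + 2) → Fin 1 → G => RingHom.id B (pull (nuC c) φ v) := by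
    rw [hu]
    exact isPhi_u1 h0
  have hΦ' := isPhi_avF D hΦ
  obtain ⟨Ψ, hΨ, hav⟩ := avF_eq D hΦ
  have h1 : IsC c fun v : Fin (n + 2) → G =>
      avF D (fun v => RingHom.id B (pull (nuC c) φ v)) fun j _ => v j :=
    ⟨fun g hg x => hΦ'.inv g hg fun j _ => x j, fun v => hΦ'.coc fun j _ => v j⟩
  have h2 : RI D fun v : Fin (n + 2) → G =>
      avF D (fun v => RingHom.id B (pull (nuC c) φ v)) fun j _ => v j := fun s hs v =>
    avF_rinv D _ (fun j _ => s j) (fun j _ => hs j) fun j _ => v j
  have h3 : CI c fun w : Fin (n + 1) → G => Ψ fun j _ => w j := fun g hg x =>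
    hΨ.inv g hg fun j _ => x j
  have hcard : Fintype.card (Fin 1 → D) = Fintype.card D := by
    rw [Fintype.card_fun, Fintype.card_fin, pow_one]
  have h4 : ∀ v : Fin (n + 2) → G,
      avF D (fun v => RingHom.id B (pull (nuC c) φ v)) (fun j _ => v j) =
        (Fintype.card D : B) ^ (n + 2) * pullC (piC c) φ v + dl (fun w => Ψ fun j _ => w j) v := by
    intro v
    refine (hav fun j _ => v j).trans ?_
    rw [hcard, zsmul_eq_mul, Int.cast_pow, Int.cast_natCast]
    congr 2
    exact pull_nuC c φ fun j _ => v j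
  have h5 : ∀ w : KQ (MonoidAlgebra B G) n,
      tr1 h1 w = (Fintype.card D : B) ^ (n + 2) * T1 hφ w := fun w =>
    (tr1_cob (isC_mul _ h0) h1 h3 h4 w).trans (tr1_mul _ h0 _ w)
  have hN : (Fintype.card D : B) ^ (n + 2) ≠ 0 :=
    pow_ne_zero _ (Nat.cast_ne_zero.2 Fintype.card_ne_zero)
  -- the identity of the homomorphisms in `y`
  have key : (T1 hφ).comp ((gasm B n D.subtype (Subgroup.centralizer (D : Set G)).subtype
      (cent_comm D)).flip z) =
      ∑ x : D, (AddMonoidHom.mulLeft (vl hφ D x z)).comp (T (dlt B x) (dlt_comm _ x)) := by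
    apply K0.hom_ext
    intro a
    rw [AddMonoidHom.comp_apply, AddMonoidHom.finsetSum_apply]
    simp only [AddMonoidHom.comp_apply, AddMonoidHom.coe_mulLeft, AddMonoidHom.flip_apply]
    apply mul_left_cancel₀ hN
    rw [← h5, tr1_gasm h1 D h2 a z, Finset.mul_sum]
    refine Finset.sum_congr rfl fun x _ => ?_
    have e1 : ∀ y : Fin (n + 2) → Subgroup.centralizer (D : Set G),
        rs c (u1 fun v : Fin (n + 2) → G =>
          avF D (fun v => RingHom.id B (pull (nuC c) φ v)) fun j _ => v j) (x : G)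
          (fun j => (y j : G)) =
        rs c (avF D fun v => RingHom.id B (pull (nuC c) φ v)) (x : G) fun j => (y j : G) := by
      intro y
      congr 1
      funext v
      show avF D _ (fun j _ => v j 0) = avF D _ v
      congr 1
      funext j t
      rw [Subsingleton.elim t 0]
    rw [HG.ev_congr _ (isCoc_rs hΦ' D x) e1 z, ev_rs_avF (RingHom.id B) (nuC c) 1
      (fun v => mass_single' _ _) (nuC_lmul c) hφ D hΦ' x z, T_dlt_mk, hcard]
    push_cast
    rw [id_eq]
    ring
  have h := DFunLike.congr_fun key y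
  rw [AddMonoidHom.comp_apply, AddMonoidHom.finsetSum_apply] at h
  simpa only [AddMonoidHom.comp_apply, AddMonoidHom.coe_mulLeft, AddMonoidHom.flip_apply] using h

end

end Pool.Agent.H16.CZ
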